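import Mathlib

/-!
# Right-angled polytopes in hyperbolic 6-space (MP_20f8ce_gt): statements of the parts, Mathlib only

Notation: `q y = ∑ y i ^ 2`, `F u = u ^ (-5/2)` (`= ∞` for `u ≤ 0`),
`M y` = the largest possible value of `r² + ∑_{k ∈ I} d k * (2 y k - d k)` over `0 < r ≤ 1`, `I ≠ ∅`, `d k ≥ r`
(`= max (2 max y, S₃²/2, S₄²/3, S₅²/4)`, `S_k` = sum of the `k` largest coordinates), and
`K ρ = ∫_{[0,1/2]^5} F (max ρ (M y) - q y) dy`.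
-/

set_option autoImplicit false

open MeasureTheory Set Filter Topology

namespace Pool.Agent.W438.RA

/-- sum of squares -/
def q (y : Fin 5 → ℝ) : ℝ := ∑ i, y i ^ 2

/-- `u ↦ u^{-5/2}`, equal to `∞` for `u ≤ 0` -/
noncomputable def F (u : ℝ) : ENNReal := (ENNReal.ofReal u) ^ (-(5 / 2) : ℝ)

/-- the value attached to a set of coordinates -/
noncomputable def MA (y : Fin 5 → ℝ) (A : Finset (Fin 5)) : ℝ :=
  if A.card ≤ 1 then 2 * ∑ i ∈ A, y i else (∑ i ∈ A, y i) ^ 2 / ((A.card : ℝ) - 1)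

/-- the maximum over all sets of coordinates -/
noncomputable def M (y : Fin 5 → ℝ) : ℝ :=
  (Finset.univ : Finset (Finset (Fin 5))).sup' Finset.univ_nonempty (MA y)

/-- the octant integral -/
noncomputable def K (ρ : ℝ) : ENNReal :=
  ∫⁻ y in Icc (0 : Fin 5 → ℝ) (fun _ => 1 / 2), F (max ρ (M y) - q y)

/-- the lower bound for a pair of octants -/
noncomputable def Kmin : ENNReal := min (K 1 + K (1 / 8)) (K (7 / 8) + K (1 / 2))

/-- Part NUM -/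
def S_num : Prop := ENNReal.ofReal (7 * Real.pi ^ 3 / 24) < 16 * Kmin

/-- Part OCT: the octant estimate in a box with smallest side 1 -/
def S_oct : Prop :=
  ∀ (ι : Type) [Fintype ι] (p : ι → Fin 5 → ℝ) (r : ι → ℝ) (l : Fin 5 → ℝ) (j : Fin 5),
    (∀ i, 0 < r i) → (∀ k, 1 ≤ l k) → l j = 1 →
    (∀ i k, p i k = 0 ∨ r i ≤ p i k) → (∀ i k, p i k = l k ∨ p i k ≤ l k - r i) →
    (∀ i i', i ≠ i' → r i ^ 2 + r i' ^ 2 ≤ ∑ k, (p i k - p i' k) ^ 2) →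
    ENNReal.ofReal (16 / 5) * Kmin ≤
      ∫⁻ x in Icc (0 : Fin 5 → ℝ) l,
        ∫⁻ t in {t : ℝ | 0 < t ∧ ∀ i, r i ^ 2 ≤ ∑ k, (x k - p i k) ^ 2 + t ^ 2},
          ENNReal.ofReal (1 / t ^ 6)

/-- Part BOX: from a right-angled polytope with an ideal vertex at infinity (upper half-space
coordinates) to the box situation of `S_oct` -/
def S_box : Prop :=
  ∀ (ι : Type) [Fintype ι] (c : ι → Fin 5 → ℝ) (α β : ι → ℝ),
    (∀ i, ∑ k, c i k ^ 2 - 2 * α i * β i = 1) → (∀ i, 0 ≤ β i) →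
    (∀ i i', i ≠ i' → ∑ k, c i k * c i' k - α i * β i' - α i' * β i = 0 ∨
      ∑ k, c i k * c i' k - α i * β i' - α i' * β i ≤ -1) →
    (∃ (x : Fin 5 → ℝ) (t : ℝ), 0 < t ∧
      ∀ i, ∑ k, c i k * x k - α i < β i * (∑ k, x k ^ 2 + t ^ 2) / 2) →
    (∫⁻ x : Fin 5 → ℝ,
        ∫⁻ t in {t : ℝ | 0 < t ∧ ∀ i, ∑ k, c i k * x k - α i ≤ β i * (∑ k, x k ^ 2 + t ^ 2) / 2},
          ENNReal.ofReal (1 / t ^ 6)) ≠ ⊤ →
    ENNReal.ofReal (16 / 5) * Kmin ≤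
      ∫⁻ x : Fin 5 → ℝ,
        ∫⁻ t in {t : ℝ | 0 < t ∧ ∀ i, ∑ k, c i k * x k - α i ≤ β i * (∑ k, x k ^ 2 + t ^ 2) / 2},
          ENNReal.ofReal (1 / t ^ 6)

/-- hyperbolic measure of `H⁶` in hyperboloid coordinates `z ∈ ℝ⁶` -/
noncomputable def hm : Measure (Fin 6 → ℝ) :=
  volume.withDensity (fun z => ENNReal.ofReal (1 / Real.sqrt (1 + ∑ j, z j ^ 2)))

/-- Part POL: volume of the intersection of a cone (apex at the origin of the hyperboloid) with a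
large ball around another point; the constant term of the expansion does not depend on the point -/
def S_pol : Prop :=
  ∀ (c : ℝ) (w : Fin 6 → ℝ), 0 < c → c ^ 2 = 1 + ∑ i, w i ^ 2 →
    ∀ C : Set (Fin 6 → ℝ), MeasurableSet C → (∀ (s : ℝ) (z : Fin 6 → ℝ), 0 < s → (s • z ∈ C ↔ z ∈ C)) →
    ∃ a b d : ℝ, Tendsto (fun U : ℝ =>
      (hm {z | z ∈ C ∧ c * Real.sqrt (1 + ∑ i, z i ^ 2) - ∑ i, w i * z i ≤ U}).toReal
        - (a * U ^ 5 + b * U ^ 3 + d * U)) atTop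
      (𝓝 (-(16 / 5) * (volume {z : Fin 6 → ℝ | z ∈ C ∧ ∑ i, z i ^ 2 < 1}).toReal))

/-- Part ORT: volume of an orthant of the unit ball of `ℝ⁶` -/
def S_ort : Prop :=
  ∀ (κ : Type) [Fintype κ] (n : κ → Fin 6 → ℝ), (∀ i, ∑ k, n i k ^ 2 = 1) →
    (∀ i i', i ≠ i' → ∑ k, n i k * n i' k = 0) →
    Fintype.card κ ≤ 6 ∧
    volume {z : Fin 6 → ℝ | (∀ i, 0 < ∑ k, n i k * z k) ∧ ∑ k, z k ^ 2 < 1} =
      ENNReal.ofReal (Real.pi ^ 3 / 6 / 2 ^ Fintype.card κ)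

end Pool.Agent.W438.RA
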