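import Pool.Agent.W438.RA.P6
import Pool.Agent.W308.RA.Chart
import Pool.Agent.W337.RA.Gram
import Pool.Agent.W337.RA.Null
import Pool.Agent.W337.RA.Oct
import Pool.Agent.W337.RA.Ort
import Pool.Agent.W340.RA.Box
import Pool.Agent.W503.RA.Pol
import Pool.Agent.W721.RA.NC
import Pool.Agent.W932.RA.Num

set_option autoImplicit false

open MeasureTheory Set Filter Topology

namespace Pool.Agent.W438.RA

open Pool.Agent.W575.Hyp6 Pool.Agent.W438.Hyp

/-- every right-angled polytope in `H⁶` has volume at least `π³/15` -/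
theorem lower {ι : Type} [Fintype ι] (e : ι → Fin 7 → ℝ) (h : RightAngled e) :
    ENNReal.ofReal (Real.pi ^ 3 / 15) ≤ hypVol (poly e) :=
  main_lower Pool.Agent.W932.RA.Num.main (Pool.Agent.W340.RA.Box.main Pool.Agent.W337.RA.oct)
    Pool.Agent.W503.RA.main Pool.Agent.W337.RA.ort
    (Pool.Agent.W721.RA.main Pool.Agent.W337.RA.gram) Pool.Agent.W337.RA.null
    Pool.Agent.W337.RA.refl Pool.Agent.W308.RA.main Pool.Agent.W337.RA.gram e h

/-- the generator `s f` acts as the reflection in the hyperplane of `NR f` -/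
theorem smul_s (f : Fin 27) (x : H6) :
    (s f • x).1 = x.1 - (2 * B x.1 (NR f)) • NR f := by
  rw [smul_val]
  have h1 : ∀ i j, (s f).1.1 i j = (if i = j then 1 else 0) - 2 * N f i * (J ℤ).mulVec (N f) j :=
    fun i j => rfl
  have h2 : ∀ j, (((J ℤ).mulVec (N f) j : ℤ) : ℝ) = (J ℝ).mulVec (NR f) j := by
    intro j
    simp only [Matrix.mulVec, dotProduct, NR]
    push_cast
    refine Finset.sum_congr rfl fun k _ => ?_
    congr 1
    have h := congrFun (congrFun J_map' j) k
    rwa [Matrix.map_apply] at h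
  have h3 : B x.1 (NR f) = ∑ j, x.1 j * (J ℝ).mulVec (NR f) j := by
    rw [B_eq_dot]; rfl
  funext i
  have h4 : actR (s f) x.1 i = ∑ j, (((s f).1.1 i j : ℤ) : ℝ) * x.1 j := rfl
  rw [h4]
  simp only [h1]
  push_cast
  simp only [h2, sub_mul, Finset.sum_sub_distrib, Pi.sub_apply, Pi.smul_apply, smul_eq_mul]
  congr 1
  · simp
  · rw [h3, Finset.mul_sum, Finset.sum_mul]
    refine Finset.sum_congr rfl fun j _ => ?_
    simp only [NR]
    ring

end Pool.Agent.W438.RA
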