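import Pool.Agent.W438.RA.Defs
import Pool.Agent.W575.Hyp6.VolDefs

/-!
# Right-angled polytopes in hyperbolic 6-space (MP_20f8ce_gt): definitions and statements of the parts

`H6` = hyperboloid `B x x = -1`, `0 < x 0` in `ℝ⁷` (`B x y = -x₀y₀ + x₁y₁ + ... + x₆y₆`), `hypVol` = hyperbolic volume
(`Pool.Agent.W575.Hyp6.VolDefs`).
-/

set_option autoImplicit false

open MeasureTheory Set Filter Topology

namespace Pool.Agent.W438.RA

open Pool.Agent.W575.Hyp6 (B H6 hypVol pt)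

/-- the intersection of the half-spaces `B x (e i) ≤ 0` -/
def poly {ι : Type} (e : ι → Fin 7 → ℝ) : Set H6 := {x | ∀ i, B x.1 (e i) ≤ 0}

/-- `e` is the family of outer unit normals of a right-angled polytope in `H⁶`: the polytope has
nonempty interior, every `e i` defines a side (a point of the hyperplane of `e i` lies strictly inside all
the other half-spaces), and any two sides whose hyperplanes meet are orthogonal. -/
structure RightAngled {ι : Type} (e : ι → Fin 7 → ℝ) : Prop where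
  unit : ∀ i, B (e i) (e i) = 1
  interior : ∃ x : H6, ∀ i, B x.1 (e i) < 0
  side : ∀ i, ∃ x : H6, B x.1 (e i) = 0 ∧ ∀ j, j ≠ i → B x.1 (e j) < 0
  right : ∀ i j, i ≠ j → (∃ x : H6, B x.1 (e i) = 0 ∧ B x.1 (e j) = 0) → B (e i) (e j) = 0

/-- Part GRAM -/
def S_gram : Prop := ∀ (ι : Type) (e : ι → Fin 7 → ℝ), RightAngled e →
  ∀ i j, i ≠ j → B (e i) (e j) = 0 ∨ B (e i) (e j) ≤ -1

/-- Part NC: there is no bounded right-angled polytope in `H⁶` -/
def S_nc : Prop := ∀ (ι : Type) [Fintype ι] (e : ι → Fin 7 → ℝ), RightAngled e →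
  (∃ R : ℝ, ∀ x ∈ poly e, x.1 0 ≤ R) → False

/-- Part NULL: an unbounded polytope has a null direction -/
def S_null : Prop := ∀ (ι : Type) [Fintype ι] (e : ι → Fin 7 → ℝ),
  (∀ R : ℝ, ∃ x ∈ poly e, R < x.1 0) →
  ∃ a : Fin 7 → ℝ, 0 < a 0 ∧ B a a = 0 ∧ ∀ i, B a (e i) ≤ 0

/-- linear isometries of the Lorentz form preserving the future -/
def Isom (L : (Fin 7 → ℝ) →ₗ[ℝ] (Fin 7 → ℝ)) : Prop :=
  (∀ x y, B (L x) (L y) = B x y) ∧ ∀ x, B x x < 0 → 0 < x 0 → 0 < L x 0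

/-- Part REFL: transitivity on points and on null directions -/
def S_refl : Prop :=
  (∀ x : H6, ∃ L, Isom L ∧ L x.1 = ![1, 0, 0, 0, 0, 0, 0]) ∧
  (∀ a : Fin 7 → ℝ, 0 < a 0 → B a a = 0 → ∃ L, Isom L ∧ L a = a 0 • ![1, 1, 0, 0, 0, 0, 0])

/-- upper half-space coordinates: `upH x t` has time coordinate `(1+|x|²+t²)/(2t)` and space
coordinates `((|x|²+t²-1)/(2t), x/t)` (for `t > 0`) -/
noncomputable def upH (x : Fin 5 → ℝ) (t : ℝ) : H6 :=
  pt (Fin.cons ((∑ k, x k ^ 2 + t ^ 2 - 1) / (2 * t)) (fun k => x k / t))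

/-- Part CHART: hyperbolic volume in upper half-space coordinates -/
def S_chart : Prop := ∀ A : Set H6, MeasurableSet A →
  hypVol A = ∫⁻ x : Fin 5 → ℝ, ∫⁻ t in {t : ℝ | 0 < t ∧ upH x t ∈ A}, ENNReal.ofReal (1 / t ^ 6)

end Pool.Agent.W438.RA
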