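import Pool.Agent.W438.RA.GB

set_option autoImplicit false

open MeasureTheory Set Filter Topology

namespace Pool.Agent.W438.RA

open Pool.Agent.W438.Vol Pool.Agent.W575.Hyp6 Pool.Agent.W438.Hyp
open scoped Matrix

/-- coordinates of a normal vector in the upper half-space model -/
noncomputable def al (f : Fin 7 → ℝ) : ℝ := (f 0 + f 1) / 2
noncomputable def be (f : Fin 7 → ℝ) : ℝ := f 0 - f 1
def cc (f : Fin 7 → ℝ) : Fin 5 → ℝ := fun k => f k.succ.succ

lemma B_split2 (x y : Fin 7 → ℝ) :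
    B x y = -(x 0 * y 0) + x 1 * y 1 + ∑ k : Fin 5, x k.succ.succ * y k.succ.succ := by
  rw [B_split, Fin.sum_univ_succ]
  rw [show (Fin.succ 0 : Fin 7) = 1 from rfl]
  ring

lemma gram_coords (f g : Fin 7 → ℝ) :
    ∑ k, cc f k * cc g k - al f * be g - al g * be f = B f g := by
  rw [B_split2]
  simp only [cc, al, be]
  ring

lemma upH_zero (x : Fin 5 → ℝ) {t : ℝ} (ht : 0 < t) :
    (upH x t).1 0 = (∑ k, x k ^ 2 + t ^ 2 + 1) / (2 * t) := by
  unfold upH
  rw [pt_val]
  simp only [Fin.cons_zero]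
  rw [Fin.sum_univ_succ]
  simp only [Fin.cons_zero, Fin.cons_succ]
  have hs : 0 ≤ ∑ k, x k ^ 2 := Finset.sum_nonneg fun k _ => sq_nonneg _
  have h1 : 1 + (((∑ k, x k ^ 2 + t ^ 2 - 1) / (2 * t)) ^ 2 + ∑ k, (x k / t) ^ 2) =
      ((∑ k, x k ^ 2 + t ^ 2 + 1) / (2 * t)) ^ 2 := by
    have h2 : ∑ k, (x k / t) ^ 2 = (∑ k, x k ^ 2) / t ^ 2 := by
      rw [Finset.sum_div]
      exact Finset.sum_congr rfl fun k _ => by rw [div_pow]
    rw [h2]
    field_simp
    ring
  rw [h1, Real.sqrt_sq]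
  positivity

lemma upH_one (x : Fin 5 → ℝ) (t : ℝ) :
    (upH x t).1 1 = (∑ k, x k ^ 2 + t ^ 2 - 1) / (2 * t) := by
  unfold upH
  rw [pt_val, show (1 : Fin 7) = Fin.succ 0 from rfl, Fin.cons_succ, Fin.cons_zero]

lemma upH_ss (x : Fin 5 → ℝ) (t : ℝ) (k : Fin 5) : (upH x t).1 k.succ.succ = x k / t := by
  unfold upH
  rw [pt_val, Fin.cons_succ, Fin.cons_succ]

lemma B_upH (x : Fin 5 → ℝ) {t : ℝ} (ht : 0 < t) (f : Fin 7 → ℝ) :
    B (upH x t).1 f =
      (∑ k, cc f k * x k - al f - be f * (∑ k, x k ^ 2 + t ^ 2) / 2) / t := by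
  rw [B_split2, upH_zero x ht, upH_one]
  simp only [upH_ss]
  have h1 : ∑ k : Fin 5, x k / t * f k.succ.succ = (∑ k, cc f k * x k) / t := by
    rw [Finset.sum_div]
    exact Finset.sum_congr rfl fun k _ => by rw [cc]; ring
  rw [h1, al, be]
  field_simp
  ring

lemma upH_mem {ι : Type} (f : ι → Fin 7 → ℝ) (x : Fin 5 → ℝ) :
    {t : ℝ | 0 < t ∧ upH x t ∈ poly f} = {t : ℝ | 0 < t ∧ ∀ i,
      ∑ k, cc (f i) k * x k - al (f i) ≤ be (f i) * (∑ k, x k ^ 2 + t ^ 2) / 2} := by
  ext t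
  constructor
  · rintro ⟨ht, h⟩
    refine ⟨ht, fun i => ?_⟩
    have h1 := h i
    rw [B_upH x ht] at h1
    have h2 := (div_le_iff₀ ht).1 h1
    linarith
  · rintro ⟨ht, h⟩
    refine ⟨ht, fun i => ?_⟩
    rw [B_upH x ht]
    have h1 := h i
    exact div_nonpos_of_nonpos_of_nonneg (by linarith) ht.le

/-- every point of `H⁶` is a point of the upper half-space -/
lemma upH_surj (z : H6) : ∃ (x : Fin 5 → ℝ) (t : ℝ), 0 < t ∧ upH x t = z := by
  have hz := z.2.1
  have hz0 := z.2.2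
  rw [B_split2] at hz
  set s := ∑ k : Fin 5, z.1 k.succ.succ * z.1 k.succ.succ with hs
  have hs0 : 0 ≤ s := Finset.sum_nonneg fun k _ => mul_self_nonneg _
  have hd : 0 < z.1 0 - z.1 1 := by nlinarith
  set t := 1 / (z.1 0 - z.1 1) with ht
  have ht0 : 0 < t := by positivity
  refine ⟨fun k => t * z.1 k.succ.succ, t, ht0, ?_⟩
  have h1 : ∑ k : Fin 5, (t * z.1 k.succ.succ) ^ 2 + t ^ 2 = t * (z.1 0 + z.1 1) := by
    have : ∑ k : Fin 5, (t * z.1 k.succ.succ) ^ 2 = t ^ 2 * s := by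
      rw [hs, Finset.mul_sum]
      exact Finset.sum_congr rfl fun k _ => by ring
    rw [this]
    have h2 : s + 1 = (z.1 0 - z.1 1) * (z.1 0 + z.1 1) := by linarith
    have h3 : t * (z.1 0 - z.1 1) = 1 := by rw [ht]; field_simp
    calc t ^ 2 * s + t ^ 2 = t * t * (s + 1) := by ring
      _ = t * (z.1 0 + z.1 1) * (t * (z.1 0 - z.1 1)) := by rw [h2]; ring
      _ = t * (z.1 0 + z.1 1) := by rw [h3, mul_one]
  have h4 : 1 / t = z.1 0 - z.1 1 := by rw [ht]; field_simp
  have h5 : t * (z.1 0 - z.1 1) = 1 := by rw [ht]; field_simp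
  apply Subtype.ext
  funext j
  refine Fin.cases ?_ (fun j => ?_) j
  · rw [upH_zero _ ht0, h1, div_eq_iff (by positivity)]
    linarith
  · refine Fin.cases ?_ (fun k => ?_) j
    · rw [show (Fin.succ 0 : Fin 7) = 1 from rfl, upH_one, h1, div_eq_iff (by positivity)]
      linarith
    · rw [upH_ss]
      field_simp

/-- **Main theorem from the parts** -/
theorem main_lower (hnum : S_num) (hbox : S_box) (hpol : S_pol) (hort : S_ort) (hnc : S_nc)
    (hnull : S_null) (hrefl : S_refl) (hchart : S_chart) (hgram : S_gram)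
    {ι : Type} [Fintype ι] (e : ι → Fin 7 → ℝ) (h : RightAngled e) :
    ENNReal.ofReal (Real.pi ^ 3 / 15) ≤ hypVol (poly e) := by
  classical
  by_cases hfin : hypVol (poly e) = ⊤
  · rw [hfin]; exact le_top
  have hunb : ∀ R : ℝ, ∃ x ∈ poly e, R < x.1 0 := by
    by_contra hcon
    push Not at hcon
    exact hnc ι e h hcon
  obtain ⟨a, ha0, haa, hae⟩ := hnull ι e hunb
  obtain ⟨L, hL, hLa⟩ := hrefl.2 a ha0 haa
  set f : ι → Fin 7 → ℝ := fun i => L (e i) with hf
  have hpoly : poly e = actI hL ⁻¹' poly f := by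
    ext x
    simp only [poly, mem_preimage, Set.mem_ofPred_eq, actI_val, hf, hL.1]
  have hvol : hypVol (poly e) = hypVol (poly f) := by
    rw [hpoly]
    exact (mp_actI hL).measure_preimage (measurableSet_poly f).nullMeasurableSet
  have hgr : ∀ i j, B (f i) (f j) = B (e i) (e j) := fun i j => hL.1 _ _
  have hchart' := hchart (poly f) (measurableSet_poly f)
  simp only [upH_mem] at hchart'
  have hbox' := hbox ι (fun i => cc (f i)) (fun i => al (f i)) (fun i => be (f i)) ?_ ?_ ?_ ?_ ?_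
  · rw [← hchart', ← hvol] at hbox'
    have h16 : ENNReal.ofReal (7 * Real.pi ^ 3 / 120) < ENNReal.ofReal (16 / 5) * Kmin := by
      have h1 : ENNReal.ofReal (7 * Real.pi ^ 3 / 120) =
          ENNReal.ofReal (1 / 5) * ENNReal.ofReal (7 * Real.pi ^ 3 / 24) := by
        rw [← ENNReal.ofReal_mul (by norm_num)]
        congr 1
        ring
      have h2 : ENNReal.ofReal (16 / 5) = ENNReal.ofReal (1 / 5) * 16 := by
        rw [← ENNReal.ofReal_ofNat 16, ← ENNReal.ofReal_mul (by norm_num)]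
        congr 1
        norm_num
      rw [h1, h2, mul_assoc]
      exact ENNReal.mul_lt_mul_right (by simp) (by simp) hnum
    exact gap e hpol hort hrefl hgram h (h16.trans_le hbox')
  · intro i
    have := gram_coords (f i) (f i)
    rw [hgr, h.unit] at this
    simp only [← this]
    have h3 : ∑ k, cc (f i) k ^ 2 = ∑ k, cc (f i) k * cc (f i) k :=
      Finset.sum_congr rfl fun k _ => by ring
    rw [h3]
    ring
  · intro i
    have h1 : B (L a) (f i) ≤ 0 := by rw [hf, hL.1]; exact hae i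
    rw [hLa, B_smul_left] at h1
    have h2 : B ![1, 1, 0, 0, 0, 0, 0] (f i) = - be (f i) := by
      simp [B, be]
      ring
    rw [h2] at h1
    have h3 : 0 ≤ a 0 * be (f i) := by linarith
    exact nonneg_of_mul_nonneg_right h3 ha0
  · intro i j hij
    simp only [gram_coords, hgr]
    exact hgram ι e h i j hij
  · obtain ⟨X0, hX0⟩ := h.interior
    obtain ⟨x, t, ht, hxt⟩ := upH_surj (actI hL X0)
    refine ⟨x, t, ht, fun i => ?_⟩
    have h1 : B (upH x t).1 (f i) < 0 := by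
      rw [hxt, actI_val, hf, hL.1]
      exact hX0 i
    rw [B_upH x ht] at h1
    have h2 := (div_lt_iff₀ ht).1 h1
    linarith
  · rw [← hchart', ← hvol]
    exact hfin

end Pool.Agent.W438.RA
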