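import Pool.Agent.W438.RA.Sec

set_option autoImplicit false

open MeasureTheory Set Filter Topology

namespace Pool.Agent.W438.RA

open Pool.Agent.W438.Vol Pool.Agent.W575.Hyp6 Pool.Agent.W438.Hyp
open scoped Matrix

lemma measurable_B (v : Fin 7 → ℝ) : Measurable (fun z : H6 => B z.1 v) := by
  have h1 : Measurable (fun x : Fin 7 → ℝ => B x v) := by
    unfold B
    fun_prop
  exact h1.comp measurable_subtype_coe

/-- causal vectors have constant sign -/
lemma causal_sign (n : Fin 7 → ℝ) (hn : B n n ≤ 0) (x y : H6) (hx : 0 < B x.1 n)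
    (hy : B y.1 n < 0) : False := by
  rcases lt_trichotomy (n 0) 0 with h | h | h
  · have h1 := B_neg_of_future y.1 (-n) y.2.2 (by rw [y.2.1]; norm_num) (by simpa using h)
      (by rw [B_neg_left, B_neg_right]; simpa using hn)
    rw [B_neg_right] at h1
    linarith
  · have h2 : ∀ k : Fin 6, n k.succ = 0 := by
      rw [B_split, h] at hn
      simp only [mul_zero, neg_zero, zero_add] at hn
      intro k
      have h3 : ∑ k : Fin 6, n k.succ * n k.succ = 0 :=
        le_antisymm hn (Finset.sum_nonneg fun k _ => mul_self_nonneg _)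
      have h4 := (Finset.sum_eq_zero_iff_of_nonneg (fun k _ => mul_self_nonneg (n k.succ))).1 h3 k
        (Finset.mem_univ _)
      exact mul_self_eq_zero.1 h4
    have h5 : B x.1 n = 0 := by
      rw [B_split, h]
      simp [h2]
    linarith
  · have h1 := B_neg_of_future x.1 n x.2.2 (by rw [x.2.1]; norm_num) h hn
    linarith

/-- large balls have finite volume -/
lemma ball_finite (U : ℝ) : hypVol {x : H6 | x.1 0 ≤ U} ≠ ⊤ := by
  have hm : MeasurableSet {x : H6 | x.1 0 ≤ U} := by
    apply measurableSet_le _ measurable_const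
    exact (measurable_pi_apply 0).comp measurable_subtype_coe
  rw [hypVol_apply hm]
  have hsub : pt ⁻¹' {x : H6 | x.1 0 ≤ U} ⊆ Metric.closedBall (0 : Fin 6 → ℝ) |U| := by
    intro y hy0
    have hy : Real.sqrt (1 + ∑ j, y j ^ 2) ≤ U := hy0
    rw [mem_closedBall_zero_iff, pi_norm_le_iff_of_nonneg (abs_nonneg _)]
    intro k
    rw [Real.norm_eq_abs]
    have h1 : y k ^ 2 ≤ 1 + ∑ j, y j ^ 2 := by
      have := Finset.single_le_sum (f := fun j => y j ^ 2) (fun j _ => sq_nonneg (y j))
        (Finset.mem_univ k)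
      linarith
    have h2 : |y k| ≤ Real.sqrt (1 + ∑ j, y j ^ 2) := by
      rw [← Real.sqrt_sq_eq_abs]
      exact Real.sqrt_le_sqrt h1
    exact (h2.trans hy).trans (le_abs_self U)
  refine ((measure_mono hsub).trans_lt ?_).ne
  unfold hypMeas
  rw [withDensity_apply _ Metric.isClosed_closedBall.measurableSet]
  calc ∫⁻ a in Metric.closedBall (0 : Fin 6 → ℝ) |U|, ENNReal.ofReal (1 / Real.sqrt (1 + ∑ j, a j ^ 2))
      ≤ ∫⁻ a in Metric.closedBall (0 : Fin 6 → ℝ) |U|, 1 := by
        refine lintegral_mono fun a => ?_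
        rw [ENNReal.ofReal_le_one]
        rw [div_le_one (by positivity)]
        rw [Real.one_le_sqrt]
        have : 0 ≤ ∑ j, a j ^ 2 := Finset.sum_nonneg fun j _ => sq_nonneg _
        linarith
    _ = volume (Metric.closedBall (0 : Fin 6 → ℝ) |U|) := by simp
    _ < ⊤ := measure_closedBall_lt_top

section
variable {ι : Type} [Fintype ι] [DecidableEq ι] (e : ι → Fin 7 → ℝ)

/-- sector of a set of outer half-spaces -/
def sector (T : Finset ι) : Set H6 := {x | ∀ i ∈ T, 0 < B x.1 (e i)}

lemma measurableSet_sector (T : Finset ι) : MeasurableSet (sector e T) := by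
  have : sector e T = ⋂ i ∈ T, {x : H6 | 0 < B x.1 (e i)} := by ext; simp [sector]
  rw [this]
  exact Finset.measurableSet_biInter _ fun i _ =>
    measurableSet_lt measurable_const (measurable_B _)

lemma measurableSet_poly : MeasurableSet (poly e) := by
  have : poly e = ⋂ i, {x : H6 | B x.1 (e i) ≤ 0} := by ext; simp [poly]
  rw [this]
  exact MeasurableSet.iInter fun i => measurableSet_le (measurable_B _) measurable_const

/-- cliques of the orthogonality graph -/
def Clq (T : Finset ι) : Prop := ∀ i ∈ T, ∀ j ∈ T, i ≠ j → B (e i) (e j) = 0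

lemma sector_empty (hgram : S_gram) (h : RightAngled e) (T : Finset ι) (hT : ¬ Clq e T) :
    sector e T = ∅ := by
  unfold Clq at hT
  push Not at hT
  obtain ⟨i, hi, j, hj, hij, hne⟩ := hT
  have hg : B (e i) (e j) ≤ -1 := by
    rcases hgram ι e h i j hij with h1 | h1
    · exact absurd h1 hne
    · exact h1
  rw [Set.eq_empty_iff_forall_notMem]
  intro x hx
  obtain ⟨X0, hX0⟩ := h.interior
  refine causal_sign (e i + e j) ?_ x X0 ?_ ?_
  · rw [B_add_left, B_add_right, B_add_right, h.unit, h.unit, B_comm (e j) (e i)]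
    linarith
  · rw [B_add_right]; linarith [hx i hi, hx j hj]
  · rw [B_add_right]; linarith [hX0 i, hX0 j]

lemma indicator_identity (x : H6) :
    (poly e).indicator (fun _ => (1 : ℝ)) x =
      ∑ T ∈ (Finset.univ : Finset ι).powerset,
        (-1) ^ T.card * (sector e T).indicator (fun _ => (1 : ℝ)) x := by
  classical
  have h1 : (poly e).indicator (fun _ => (1 : ℝ)) x =
      ∏ i, ((1 : ℝ) - (if 0 < B x.1 (e i) then 1 else 0)) := by
    by_cases hx : x ∈ poly e
    · rw [Set.indicator_of_mem hx]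
      symm
      apply Finset.prod_eq_one
      intro i _
      rw [if_neg (not_lt.2 (hx i))]
      ring
    · rw [Set.indicator_of_notMem hx]
      simp only [poly, Set.mem_ofPred_eq, not_forall, not_le] at hx
      obtain ⟨i, hi⟩ := hx
      symm
      apply Finset.prod_eq_zero (Finset.mem_univ i)
      rw [if_pos hi]
      ring
  rw [h1, Finset.prod_sub]
  refine Finset.sum_congr rfl fun T _ => ?_
  rw [Finset.prod_const_one, mul_one]
  congr 1
  by_cases hx : x ∈ sector e T
  · rw [Set.indicator_of_mem hx]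
    apply Finset.prod_eq_one
    intro i hi
    rw [if_pos (hx i hi)]
  · rw [Set.indicator_of_notMem hx]
    simp only [sector, Set.mem_ofPred_eq, not_forall, not_lt] at hx
    obtain ⟨i, hi, hi2⟩ := hx
    apply Finset.prod_eq_zero hi
    rw [if_neg (not_lt.2 hi2)]

/-- inclusion-exclusion inside a ball -/
lemma incl_excl (U : ℝ) :
    (hypVol (poly e ∩ {x : H6 | x.1 0 ≤ U})).toReal =
      ∑ T ∈ (Finset.univ : Finset ι).powerset,
        (-1) ^ T.card * (hypVol (sector e T ∩ {x : H6 | x.1 0 ≤ U})).toReal := by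
  have hm : MeasurableSet {x : H6 | x.1 0 ≤ U} := by
    apply measurableSet_le _ measurable_const
    exact (measurable_pi_apply 0).comp measurable_subtype_coe
  set ν := hypVol.restrict {x : H6 | x.1 0 ≤ U} with hν
  haveI : IsFiniteMeasure ν := ⟨by
    rw [hν, Measure.restrict_apply_univ]
    exact (ball_finite U).lt_top⟩
  have h1 : ∀ S : Set H6, MeasurableSet S →
      (hypVol (S ∩ {x : H6 | x.1 0 ≤ U})).toReal = ∫ x, S.indicator (fun _ => (1 : ℝ)) x ∂ν := by
    intro S hS
    rw [integral_indicator hS, setIntegral_const, smul_eq_mul, mul_one, Measure.real, hν,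
      Measure.restrict_apply hS]
  rw [h1 _ (measurableSet_poly e)]
  have h2 : ∫ x, (poly e).indicator (fun _ => (1 : ℝ)) x ∂ν =
      ∫ x, ∑ T ∈ (Finset.univ : Finset ι).powerset,
        (-1) ^ T.card * (sector e T).indicator (fun _ => (1 : ℝ)) x ∂ν := by
    refine integral_congr_ae (Eventually.of_forall fun x => ?_)
    exact indicator_identity e x
  rw [h2, integral_finsetSum]
  · refine Finset.sum_congr rfl fun T _ => ?_
    rw [integral_const_mul, h1 _ (measurableSet_sector e T)]
  · intro T _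
    apply Integrable.const_mul
    exact (integrable_const (1 : ℝ)).indicator (measurableSet_sector e T)

lemma poly_limit_zero (a b d l : ℝ)
    (h : Tendsto (fun U : ℝ => a * U ^ 5 + b * U ^ 3 + d * U) atTop (𝓝 l)) : l = 0 := by
  have hk : ∀ c : ℝ, 0 < c → Tendsto (fun U : ℝ => a * (c * U) ^ 5 + b * (c * U) ^ 3 + d * (c * U))
      atTop (𝓝 l) := by
    intro c hc
    have h2 : Tendsto (fun U : ℝ => c * U) atTop atTop := tendsto_id.const_mul_atTop hc
    exact h.comp h2
  have h1 := (((hk 8 (by norm_num)).sub ((hk 4 (by norm_num)).const_mul 42)).add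
    ((hk 2 (by norm_num)).const_mul 336)).sub ((hk 1 (by norm_num)).const_mul 512)
  have h2 : (fun U : ℝ => (a * (8 * U) ^ 5 + b * (8 * U) ^ 3 + d * (8 * U)) -
      42 * (a * (4 * U) ^ 5 + b * (4 * U) ^ 3 + d * (4 * U)) +
      336 * (a * (2 * U) ^ 5 + b * (2 * U) ^ 3 + d * (2 * U)) -
      512 * (a * (1 * U) ^ 5 + b * (1 * U) ^ 3 + d * (1 * U))) = fun _ => 0 := by
    funext U; ring
  have h3 := h1
  rw [h2] at h3
  have h4 := tendsto_nhds_unique h3 tendsto_const_nhds
  linarith

/-- the weighted number of cliques -/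
noncomputable def chi : ℝ := by
  classical
  exact ∑ T ∈ (Finset.univ : Finset ι).powerset, if Clq e T then (-1 / 2 : ℝ) ^ T.card else 0

lemma sector_tendsto (hpol : S_pol) (hort : S_ort) (hrefl : S_refl) (hgram : S_gram)
    (h : RightAngled e) (T : Finset ι) : ∃ a b d : ℝ, Tendsto (fun U : ℝ =>
      (hypVol (sector e T ∩ {x : H6 | x.1 0 ≤ U})).toReal - (a * U ^ 5 + b * U ^ 3 + d * U)) atTop
      (𝓝 (by classical exact if Clq e T then -(8 * Real.pi ^ 3 / 15) / 2 ^ T.card else 0)) := by
  classical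
  by_cases hT : Clq e T
  · rw [if_pos hT]
    obtain ⟨-, a, b, d, hl⟩ := sec (κ := {i // i ∈ T}) (e := fun i => e i.1) hpol hort hrefl
      (fun i => h.unit i.1) (fun i j hij => hT i.1 i.2 j.1 j.2 (fun hh => hij (Subtype.ext hh)))
    refine ⟨a, b, d, ?_⟩
    have hc : Fintype.card {i // i ∈ T} = T.card := by simp
    rw [hc] at hl
    refine hl.congr fun U => ?_
    congr 3
    ext x
    simp [sector]
  · rw [if_neg hT]
    refine ⟨0, 0, 0, ?_⟩
    rw [sector_empty e hgram h T hT]
    simp

lemma card_le (hpol : S_pol) (hort : S_ort) (hrefl : S_refl)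
    (h : RightAngled e) (T : Finset ι) (hT : Clq e T) : T.card ≤ 6 := by
  have h1 := (sec (κ := {i // i ∈ T}) (e := fun i => e i.1) hpol hort hrefl
      (fun i => h.unit i.1) (fun i j hij => hT i.1 i.2 j.1 j.2 (fun hh => hij (Subtype.ext hh)))).1
  simpa using h1

/-- **Gauss-Bonnet formula for right-angled polytopes in `H⁶`** -/
theorem gauss_bonnet (hpol : S_pol) (hort : S_ort) (hrefl : S_refl) (hgram : S_gram)
    (h : RightAngled e) (hfin : hypVol (poly e) ≠ ⊤) :
    (hypVol (poly e)).toReal = -(8 * Real.pi ^ 3 / 15) * chi e := by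
  classical
  choose a b d hT using sector_tendsto e hpol hort hrefl hgram h
  -- sum of the expansions
  have h1 : Tendsto (fun U : ℝ => ∑ T ∈ (Finset.univ : Finset ι).powerset, (-1 : ℝ) ^ T.card *
      ((hypVol (sector e T ∩ {x : H6 | x.1 0 ≤ U})).toReal - (a T * U ^ 5 + b T * U ^ 3 + d T * U)))
      atTop (𝓝 (∑ T ∈ (Finset.univ : Finset ι).powerset, (-1 : ℝ) ^ T.card *
        (if Clq e T then -(8 * Real.pi ^ 3 / 15) / 2 ^ T.card else 0))) := by
    refine tendsto_finsetSum _ fun T _ => ?_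
    have := (hT T).const_mul ((-1 : ℝ) ^ T.card)
    convert this using 2
  have h2 : ∑ T ∈ (Finset.univ : Finset ι).powerset, (-1 : ℝ) ^ T.card *
        (if Clq e T then -(8 * Real.pi ^ 3 / 15) / 2 ^ T.card else 0) =
        -(8 * Real.pi ^ 3 / 15) * chi e := by
    unfold chi
    rw [Finset.mul_sum]
    refine Finset.sum_congr rfl fun T _ => ?_
    by_cases hc : Clq e T
    · rw [if_pos hc]
      have : (-1 / 2 : ℝ) ^ T.card = (-1) ^ T.card / 2 ^ T.card := by rw [div_pow]
      simp only [hc, if_true]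
      rw [this]
      ring
    · simp [hc]
  rw [h2] at h1
  set A := ∑ T ∈ (Finset.univ : Finset ι).powerset, (-1 : ℝ) ^ T.card * a T with hA
  set Bb := ∑ T ∈ (Finset.univ : Finset ι).powerset, (-1 : ℝ) ^ T.card * b T with hBb
  set D := ∑ T ∈ (Finset.univ : Finset ι).powerset, (-1 : ℝ) ^ T.card * d T with hD
  have h3 : ∀ U : ℝ, ∑ T ∈ (Finset.univ : Finset ι).powerset, (-1 : ℝ) ^ T.card *
      ((hypVol (sector e T ∩ {x : H6 | x.1 0 ≤ U})).toReal - (a T * U ^ 5 + b T * U ^ 3 + d T * U)) =
      (hypVol (poly e ∩ {x : H6 | x.1 0 ≤ U})).toReal - (A * U ^ 5 + Bb * U ^ 3 + D * U) := by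
    intro U
    rw [incl_excl, hA, hBb, hD, Finset.sum_mul, Finset.sum_mul, Finset.sum_mul,
      ← Finset.sum_add_distrib, ← Finset.sum_add_distrib, ← Finset.sum_sub_distrib]
    refine Finset.sum_congr rfl fun T _ => ?_
    ring
  simp only [h3] at h1
  -- exhaustion by balls
  have h4 : Tendsto (fun U : ℝ => (hypVol (poly e ∩ {x : H6 | x.1 0 ≤ U})).toReal) atTop
      (𝓝 (hypVol (poly e)).toReal) := by
    have hmono : Monotone (fun U : ℝ => poly e ∩ {x : H6 | x.1 0 ≤ U}) := by
      intro U V hUV x hx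
      exact ⟨hx.1, le_trans hx.2 hUV⟩
    have hU : (⋃ U : ℝ, poly e ∩ {x : H6 | x.1 0 ≤ U}) = poly e := by
      ext x
      simp only [mem_iUnion, mem_inter_iff, Set.mem_ofPred_eq]
      constructor
      · rintro ⟨_, hx, _⟩; exact hx
      · intro hx; exact ⟨x.1 0, hx, le_refl _⟩
    have h5 := tendsto_measure_iUnion_atTop (μ := hypVol) hmono
    rw [hU] at h5
    exact (ENNReal.tendsto_toReal hfin).comp h5
  have h5 := h4.sub h1
  have h6 : (fun U : ℝ => (hypVol (poly e ∩ {x : H6 | x.1 0 ≤ U})).toReal -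
      ((hypVol (poly e ∩ {x : H6 | x.1 0 ≤ U})).toReal - (A * U ^ 5 + Bb * U ^ 3 + D * U))) =
      fun U : ℝ => A * U ^ 5 + Bb * U ^ 3 + D * U := by
    funext U; ring
  rw [h6] at h5
  have h7 := poly_limit_zero _ _ _ _ h5
  linarith

lemma chi_int (hpol : S_pol) (hort : S_ort) (hrefl : S_refl) (h : RightAngled e) :
    ∃ m : ℤ, 64 * chi e = m := by
  classical
  refine ⟨∑ T ∈ (Finset.univ : Finset ι).powerset,
    if Clq e T then (-1) ^ T.card * 2 ^ (6 - T.card) else 0, ?_⟩
  unfold chi
  rw [Finset.mul_sum]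
  push_cast
  refine Finset.sum_congr rfl fun T _ => ?_
  by_cases hc : Clq e T
  · simp only [hc, if_true]
    have h6 := card_le e hpol hort hrefl h T hc
    rw [div_pow]
    have h64 : (64 : ℝ) = 2 ^ T.card * 2 ^ (6 - T.card) := by
      rw [← pow_add, Nat.add_sub_cancel' h6]; norm_num
    rw [h64]
    field_simp
  · simp [hc]

/-- volumes of right-angled polytopes are multiples of `π³/120`: a volume above `7π³/120` is at
least `π³/15` -/
theorem gap (hpol : S_pol) (hort : S_ort) (hrefl : S_refl) (hgram : S_gram)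
    (h : RightAngled e) (h7 : ENNReal.ofReal (7 * Real.pi ^ 3 / 120) < hypVol (poly e)) :
    ENNReal.ofReal (Real.pi ^ 3 / 15) ≤ hypVol (poly e) := by
  by_cases hfin : hypVol (poly e) = ⊤
  · rw [hfin]; exact le_top
  have hgb := gauss_bonnet e hpol hort hrefl hgram h hfin
  obtain ⟨m, hm⟩ := chi_int e hpol hort hrefl h
  have hpi : 0 < Real.pi ^ 3 := by positivity
  have h1 : 7 * Real.pi ^ 3 / 120 < (hypVol (poly e)).toReal :=
    (ENNReal.ofReal_lt_iff_lt_toReal (by positivity) hfin).1 h7
  have h2 : (hypVol (poly e)).toReal = -(Real.pi ^ 3 / 120) * m := by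
    rw [hgb, ← hm]; ring
  rw [h2] at h1
  have h3 : (m : ℝ) < -7 := by
    by_contra hcon
    push Not at hcon
    have : -(Real.pi ^ 3 / 120) * m ≤ 7 * Real.pi ^ 3 / 120 := by nlinarith
    linarith
  have h4 : m < -7 := by exact_mod_cast h3
  have h5 : m ≤ -8 := by omega
  have h6 : (m : ℝ) ≤ -8 := by exact_mod_cast h5
  rw [ENNReal.ofReal_le_iff_le_toReal hfin, h2]
  nlinarith

end

end Pool.Agent.W438.RA
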