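import Pool.Agent.W438.RA.Defs2
import Pool.Agent.W438.Hyp.Inv

set_option autoImplicit false

open MeasureTheory Set Filter Topology

namespace Pool.Agent.W438.RA

open Pool.Agent.W438.Vol Pool.Agent.W575.Hyp6 Pool.Agent.W438.Hyp
open scoped Matrix

variable {L : (Fin 7 → ℝ) →ₗ[ℝ] (Fin 7 → ℝ)}

lemma B_zero0 (x : Fin 7 → ℝ) (hx : B x x < 0) : x 0 ≠ 0 := by
  intro h
  simp only [B] at hx
  rw [h] at hx
  nlinarith [sq_nonneg (x 1), sq_nonneg (x 2), sq_nonneg (x 3), sq_nonneg (x 4), sq_nonneg (x 5),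
    sq_nonneg (x 6)]

lemma isom_past (hL : Isom L) (x : Fin 7 → ℝ) (hx : B x x < 0) : 0 < L x 0 ↔ 0 < x 0 := by
  constructor
  · intro h
    rcases lt_or_gt_of_ne (B_zero0 x hx) with h1 | h1
    · exfalso
      have h2 := hL.2 (-x) (by rw [B_neg_left, B_neg_right]; simpa using hx) (by simpa using h1)
      rw [map_neg] at h2
      simp at h2
      linarith
    · exact h1
  · exact hL.2 x hx

/-- the action on `H⁶` -/
noncomputable def actI (hL : Isom L) (x : H6) : H6 :=
  ⟨L x.1, by rw [hL.1]; exact x.2.1, hL.2 x.1 (by rw [x.2.1]; norm_num) x.2.2⟩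

lemma actI_val (hL : Isom L) (x : H6) : (actI hL x).1 = L x.1 := rfl

lemma det_isom (hL : Isom L) : |LinearMap.det L| = 1 := by
  set A := LinearMap.toMatrix' L with hA
  have hLA : ∀ x, L x = A *ᵥ x := fun x => by
    rw [hA, ← Matrix.toLin'_apply, Matrix.toLin'_toMatrix']
  have h : Aᵀ * J ℝ * A = J ℝ := isom_of_B A (fun x y => by rw [← hLA, ← hLA, hL.1])
  have h2 := congrArg Matrix.det h
  rw [Matrix.det_mul, Matrix.det_mul, Matrix.det_transpose] at h2
  have hJ : (J ℝ).det = -1 := by
    simp [W575.Hyp6.J, Matrix.det_diagonal, Fin.prod_univ_succ]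
  rw [hJ] at h2
  have h3 : LinearMap.det L = A.det := by
    rw [hA, LinearMap.det_toMatrix']
  rw [h3]
  set d := A.det with hd
  have h4 : d * d = 1 := by linarith
  have h5 : |d| * |d| = 1 := by rw [← abs_mul, h4, abs_one]
  nlinarith [abs_nonneg d]

lemma measurable_isom : Measurable L := (LinearMap.continuous_of_finiteDimensional _).measurable

lemma isom_vol (hL : Isom L) : MeasurePreserving L (volume : Measure (Fin 7 → ℝ)) volume := by
  refine ⟨measurable_isom, ?_⟩
  have hd : LinearMap.det L ≠ 0 := by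
    intro h
    have := det_isom hL
    rw [h] at this
    simp at this
  have h := Real.map_linearMap_volume_pi_eq_smul_volume_pi hd
  rw [abs_inv, det_isom hL, inv_one, ENNReal.ofReal_one, one_smul] at h
  exact h

lemma isom_LC (hL : Isom L) : L ⁻¹' LC = LC := by
  ext x
  rw [mem_preimage, LC_iff, LC_iff, hL.1]
  constructor
  · rintro ⟨h1, h2⟩
    exact ⟨(isom_past hL x h2).1 h1, h2⟩
  · rintro ⟨h1, h2⟩
    exact ⟨(isom_past hL x h2).2 h1, h2⟩

lemma isom_mp (hL : Isom L) : MeasurePreserving L muM muM :=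
  mp_of (isom_vol hL) (isom_LC hL) (fun x => by rw [rr_B, rr_B, hL.1])

lemma nrm_isom (hL : Isom L) (x : Fin 7 → ℝ) (hx : x ∈ LC) : nrm (L x) = actI hL (nrm x) := by
  have hx' := (LC_iff x).1 hx
  have hr : 0 < 2 * rr x := by rw [rr_B]; linarith [hx'.2]
  have hs : 0 < Real.sqrt (2 * rr x) := Real.sqrt_pos.2 hr
  have hLx : L x ∈ LC := by
    have : x ∈ L ⁻¹' LC := by rw [isom_LC hL]; exact hx
    exact this
  apply nrm_of _ hLx _ (Real.sqrt (2 * rr x)) hs
  rw [actI_val, nrm_val x hx, map_smul, smul_smul, mul_one_div_cancel hs.ne', one_smul]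

lemma measurable_actI (hL : Isom L) : Measurable (actI hL) := by
  apply Measurable.subtype_mk
  exact measurable_isom.comp measurable_subtype_coe

/-- hyperbolic volume is invariant under all Lorentz isometries -/
theorem mp_actI (hL : Isom L) : MeasurePreserving (actI hL) hypVol hypVol := by
  refine ⟨measurable_actI hL, ?_⟩
  ext S hS
  rw [Measure.map_apply (measurable_actI hL) hS]
  have hS' : MeasurableSet ((actI hL) ⁻¹' S) := measurable_actI hL hS
  have h1 := muM_cone hS
  have h2 := muM_cone hS'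
  have h3 : L ⁻¹' (Hyp.cone S) = Hyp.cone ((actI hL) ⁻¹' S) := by
    unfold Hyp.cone
    ext x
    constructor
    · rintro ⟨a, b⟩
      have hx : x ∈ LC := by
        have : x ∈ L ⁻¹' LC := a
        rwa [isom_LC hL] at this
      refine ⟨hx, ?_⟩
      rw [mem_preimage, nrm_isom hL x hx] at b
      exact b
    · rintro ⟨a, b⟩
      have hLx : L x ∈ LC := by
        have : x ∈ L ⁻¹' LC := by rw [isom_LC hL]; exact a
        exact this
      refine ⟨hLx, ?_⟩
      rw [mem_preimage, nrm_isom hL x a]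
      exact b
  have h4 := (isom_mp hL).measure_preimage (measurableSet_cone hS).nullMeasurableSet
  rw [h3, h1, h2] at h4
  exact (ENNReal.mul_right_inj c_ne_zero ENNReal.ofReal_ne_top).1 h4

end Pool.Agent.W438.RA
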