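import Pool.Agent.W438.RA.Final
import Pool.Agent.W438.Hyp.Dir

set_option autoImplicit false

open MeasureTheory Set Filter Topology

namespace Pool.Agent.W438.RA

open Pool.Agent.W575.Hyp6 Pool.Agent.W438.Hyp
open scoped Matrix

/-- the 27 outer unit normals of `P⁶` -/
def NR (f : Fin 27) : Fin 7 → ℝ := fun i => ((N f i : ℤ) : ℝ)

lemma NR_eq (f : Fin 27) : NR f = cst (N f) := rfl

lemma poly_NR : poly NR = PH := rfl

lemma B_NR (f h : Fin 27) : B (NR f) (NR h) = ((B (N f) (N h) : ℤ) : ℝ) := B_cst _ _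

/-- the point of `H⁶` below a timelike vector with square `-c²` -/
noncomputable def norm6 (v : Fin 7 → ℝ) (c : ℝ) (hc : 0 < c) (hv : B v v = -c ^ 2) (hv0 : 0 < v 0) : H6 :=
  ⟨c⁻¹ • v, by
    rw [B_smul_left, B_smul_right, hv]
    field_simp, by
    simp only [Pi.smul_apply, smul_eq_mul]
    positivity⟩

lemma B_norm6 (v : Fin 7 → ℝ) (c : ℝ) (hc : 0 < c) (hv : B v v = -c ^ 2) (hv0 : 0 < v 0)
    (w : Fin 7 → ℝ) : B (norm6 v c hc hv hv0).1 w = c⁻¹ * B v w := by
  change B (c⁻¹ • v) w = _
  rw [B_smul_left]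

theorem rightAngled_NR : RightAngled NR where
  unit f := by rw [B_NR, N_norm]; norm_num
  interior := by
    have h3 : B (cst p) (cst p) = -(Real.sqrt 3) ^ 2 := by
      rw [B_cst, B_p_p, Real.sq_sqrt (by norm_num)]; norm_num
    have h0 : 0 < cst p 0 := by simp [cst, p]
    refine ⟨norm6 (cst p) (Real.sqrt 3) (by positivity) h3 h0, fun f => ?_⟩
    rw [B_norm6, B_comm, NR_eq, B_cst, B_N_p]
    have : 0 < (Real.sqrt 3)⁻¹ := by positivity
    push_cast
    linarith
  side f := by
    have hff : B (N f) (N f) = 1 := N_norm f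
    have hfp : B (N f) p = -1 := B_N_p f
    have hvv : B (p + N f) (p + N f) = -4 := by
      rw [B_add_left, B_add_right, B_add_right, hff, hfp, B_comm p (N f), hfp, B_p_p]; norm_num
    have hpos : ∀ g : Fin 27, 0 < (p + N g) 0 := by decide +kernel
    have h3 : B (cst (p + N f)) (cst (p + N f)) = -(2 : ℝ) ^ 2 := by
      rw [B_cst, hvv]; norm_num
    have h0 : 0 < cst (p + N f) 0 := by
      have := hpos f
      change (0 : ℝ) < (((p + N f) 0 : ℤ) : ℝ)
      exact_mod_cast this
    refine ⟨norm6 (cst (p + N f)) 2 (by norm_num) h3 h0, ?_, fun h hne => ?_⟩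
    · rw [B_norm6, NR_eq, B_cst, B_add_left, hff, B_comm, hfp]
      norm_num
    · rw [B_norm6, NR_eq, B_cst, B_add_left, B_comm p, B_N_p]
      rcases B_N_N f h with h1 | h1 | h1
      · exact absurd h1.symm hne
      · rw [(skew_iff f h).1 h1]; norm_num
      · rw [h1]; norm_num
  right f h hne := by
    rintro ⟨x, hx1, hx2⟩
    rcases B_N_N f h with h1 | h1 | h1
    · exact absurd h1 hne
    · rw [B_NR, (skew_iff f h).1 h1]; norm_num
    · exfalso
      have h2 := N_pos_of_meet f h h1
      have h3 : B x.1 (cst (N f + N h)) < 0 := by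
        apply B_neg_of_future x.1 _ x.2.2 (by rw [x.2.1]; norm_num)
        · change (0 : ℝ) < (((N f + N h) 0 : ℤ) : ℝ)
          exact_mod_cast h2
        · rw [B_cst, B_add_left, B_add_right, B_add_right, N_norm, N_norm, h1, B_comm (N h) (N f), h1]
          norm_num
      have h4 : cst (N f + N h) = NR f + NR h := by
        funext i
        simp [cst, NR]
      rw [h4, B_add_right, hx1, hx2] at h3
      norm_num at h3

theorem closure_s : Subgroup.closure (Set.range s) = Gam2 := le_antisymm closure_le Gam2_le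

theorem fd_P6 : IsFundamentalDomain Gam2 (poly NR) hypVol := by
  rw [poly_NR, ← Dir_Gam2]
  exact Dir_fd Gam2 (fun γ hγ h => Stab_Gam2 h hγ)

theorem vol_poly_NR : hypVol (poly NR) = ENNReal.ofReal (Real.pi ^ 3 / 15) := by
  rw [poly_NR]; exact hypVol_PH

end Pool.Agent.W438.RA
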