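import Pool.Agent.W438.RA.Inv

set_option autoImplicit false

open MeasureTheory Set Filter Topology

namespace Pool.Agent.W438.RA

open Pool.Agent.W438.Vol Pool.Agent.W575.Hyp6 Pool.Agent.W438.Hyp
open scoped Matrix

/-- the base point -/
def E0 : Fin 7 → ℝ := ![1, 0, 0, 0, 0, 0, 0]

lemma B_E0 (x : Fin 7 → ℝ) : B x E0 = - x 0 := by simp [B, E0]
lemma B_E0' (x : Fin 7 → ℝ) : B E0 x = - x 0 := by rw [B_comm, B_E0]

lemma B_split (x y : Fin 7 → ℝ) : B x y = -(x 0 * y 0) + ∑ k : Fin 6, x k.succ * y k.succ := by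
  simp only [B, Fin.sum_univ_six]
  simp only [show (Fin.succ 0 : Fin 7) = 1 from rfl, show (Fin.succ 1 : Fin 7) = 2 from rfl,
    show (Fin.succ 2 : Fin 7) = 3 from rfl, show (Fin.succ 3 : Fin 7) = 4 from rfl,
    show (Fin.succ 4 : Fin 7) = 5 from rfl, show (Fin.succ 5 : Fin 7) = 6 from rfl]
  ring

lemma B_pt (y : Fin 6 → ℝ) (v : Fin 7 → ℝ) :
    B (pt y).1 v = -(Real.sqrt (1 + ∑ k, y k ^ 2) * v 0) + ∑ k : Fin 6, y k * v k.succ := by
  rw [B_split, pt_val]
  simp only [Fin.cons_zero, Fin.cons_succ]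

section
variable {κ : Type} [Fintype κ] {e : κ → Fin 7 → ℝ}

lemma B_sum_right' (s : Finset κ) (f : κ → Fin 7 → ℝ) (y : Fin 7 → ℝ) :
    B y (∑ i ∈ s, f i) = ∑ i ∈ s, B y (f i) := by
  rw [B_comm, B_sum_left]
  exact Finset.sum_congr rfl fun i _ => B_comm _ _

/-- the projection of the base point onto the common perpendicular space -/
lemma exists_common (hu : ∀ i, B (e i) (e i) = 1) (ho : ∀ i j, i ≠ j → B (e i) (e j) = 0) :
    ∃ x : H6, ∀ i, B x.1 (e i) = 0 := by
  classical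
  set v : Fin 7 → ℝ := E0 - ∑ i, B E0 (e i) • e i with hv
  have h1 : ∀ j, B v (e j) = 0 := by
    intro j
    rw [hv, B_sub_left, B_sum_left, Finset.sum_eq_single j]
    · rw [B_smul_left, hu]; ring
    · intro i _ hij
      rw [B_smul_left, ho i j hij]; ring
    · simp
  have h2 : B v v = -1 - ∑ i, B E0 (e i) ^ 2 := by
    have : B v v = B v E0 - ∑ i, B E0 (e i) * B v (e i) := by
      conv_lhs => rw [hv]
      rw [B_sub_right, B_sum_right', ← hv]
      congr 1
      exact Finset.sum_congr rfl fun i _ => by rw [B_smul_right]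
    rw [this]
    simp only [h1, mul_zero, Finset.sum_const_zero, sub_zero]
    rw [hv, B_sub_left, B_sum_left]
    have : B E0 E0 = (-1 : ℝ) := by simp [B, E0]
    rw [this]
    congr 1
    exact Finset.sum_congr rfl fun i _ => by rw [B_smul_left, B_comm (e i) E0]; ring
  have h3 : v 0 = 1 + ∑ i, B E0 (e i) ^ 2 := by
    have h := B_E0 v
    rw [hv, B_sub_left, B_sum_left] at h
    have h4 : B E0 E0 = (-1 : ℝ) := by simp [B, E0]
    rw [h4, ← hv] at h
    have h5 : ∑ i, B (B E0 (e i) • e i) E0 = ∑ i, B E0 (e i) ^ 2 :=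
      Finset.sum_congr rfl fun i _ => by rw [B_smul_left, B_comm (e i) E0]; ring
    rw [h5] at h
    linarith
  have hs : 0 ≤ ∑ i, B E0 (e i) ^ 2 := Finset.sum_nonneg fun i _ => sq_nonneg _
  have hLC : v ∈ LC := by
    rw [LC_iff]
    exact ⟨by rw [h3]; linarith, by rw [h2]; linarith⟩
  refine ⟨nrm v, fun i => ?_⟩
  rw [nrm_val v hLC, B_smul_left, h1, mul_zero]

/-- volume of a sector inside a large ball -/
theorem sec (hpol : S_pol) (hort : S_ort) (hrefl : S_refl)
    (hu : ∀ i, B (e i) (e i) = 1) (ho : ∀ i j, i ≠ j → B (e i) (e j) = 0) :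
    Fintype.card κ ≤ 6 ∧ ∃ a b d : ℝ, Tendsto (fun U : ℝ =>
      (hypVol {x : H6 | (∀ i, 0 < B x.1 (e i)) ∧ x.1 0 ≤ U}).toReal
        - (a * U ^ 5 + b * U ^ 3 + d * U)) atTop
      (𝓝 (-(8 * Real.pi ^ 3 / 15) / 2 ^ Fintype.card κ)) := by
  classical
  obtain ⟨x, hx⟩ := exists_common hu ho
  obtain ⟨L, hL, hLx⟩ := hrefl.1 x
  set g : Fin 7 → ℝ := L E0 with hg
  set f : κ → Fin 7 → ℝ := fun i => L (e i) with hf
  have hf0 : ∀ i, f i 0 = 0 := by
    intro i
    have h1 : B (f i) E0 = 0 := by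
      have : E0 = L x.1 := by rw [hLx]; rfl
      rw [this, hf]
      simp only
      rw [hL.1, B_comm, hx]
    rw [B_E0] at h1
    linarith
  set n : κ → Fin 6 → ℝ := fun i k => f i k.succ with hn
  have hn1 : ∀ i, ∑ k, n i k ^ 2 = 1 := by
    intro i
    have h1 : B (f i) (f i) = 1 := by rw [hf]; simp only; rw [hL.1, hu]
    rw [B_split, hf0] at h1
    simp only [mul_zero, neg_zero, zero_add] at h1
    rw [← h1]
    exact Finset.sum_congr rfl fun k _ => by rw [hn]; ring
  have hn2 : ∀ i i', i ≠ i' → ∑ k, n i k * n i' k = 0 := by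
    intro i i' hii
    have h1 : B (f i) (f i') = 0 := by rw [hf]; simp only; rw [hL.1, ho i i' hii]
    rw [B_split, hf0] at h1
    simp only [zero_mul, neg_zero, zero_add] at h1
    exact h1
  obtain ⟨hcard, hvol⟩ := hort κ n hn1 hn2
  refine ⟨hcard, ?_⟩
  have hgg : B g g = -1 := by rw [hg, hL.1]; simp [B, E0]
  have hg0 : 0 < g 0 := hL.2 E0 (by simp [B, E0]) (by simp [E0])
  set C : Set (Fin 6 → ℝ) := {z | ∀ i, 0 < ∑ k, n i k * z k} with hC
  have hCm : MeasurableSet C := by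
    have : C = ⋂ i, {z | 0 < ∑ k, n i k * z k} := by ext z; simp [hC]
    rw [this]
    refine MeasurableSet.iInter fun i => ?_
    exact measurableSet_lt measurable_const (by fun_prop)
  have hCs : ∀ (s : ℝ) (z : Fin 6 → ℝ), 0 < s → (s • z ∈ C ↔ z ∈ C) := by
    intro s z hs
    simp only [hC, Set.mem_ofPred_eq, Pi.smul_apply, smul_eq_mul]
    refine forall_congr' fun i => ?_
    have : ∑ k, n i k * (s * z k) = s * ∑ k, n i k * z k := by
      rw [Finset.mul_sum]; exact Finset.sum_congr rfl fun k _ => by ring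
    rw [this]
    exact mul_pos_iff_of_pos_left hs
  obtain ⟨a, b, d, hT⟩ := hpol (g 0) (fun k => g k.succ) hg0 (by
    rw [B_split] at hgg
    have : ∑ i : Fin 6, g i.succ ^ 2 = ∑ i : Fin 6, g i.succ * g i.succ :=
      Finset.sum_congr rfl fun k _ => by ring
    rw [this]
    nlinarith) C hCm hCs
  refine ⟨a, b, d, ?_⟩
  have hconst : -(16 / 5) * (volume {z : Fin 6 → ℝ | z ∈ C ∧ ∑ i, z i ^ 2 < 1}).toReal =
      -(8 * Real.pi ^ 3 / 15) / 2 ^ Fintype.card κ := by
    have : {z : Fin 6 → ℝ | z ∈ C ∧ ∑ i, z i ^ 2 < 1} =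
        {z : Fin 6 → ℝ | (∀ i, 0 < ∑ k, n i k * z k) ∧ ∑ k, z k ^ 2 < 1} := rfl
    rw [this, hvol, ENNReal.toReal_ofReal (by positivity)]
    ring
  rw [hconst] at hT
  refine hT.congr fun U => ?_
  congr 2
  -- the two sets have the same volume
  set Z : Set H6 := {z : H6 | (∀ i, 0 < B z.1 (f i)) ∧ -B z.1 g ≤ U} with hZ
  have hZm : MeasurableSet Z := by
    have : Z = (⋂ i, {z : H6 | 0 < B z.1 (f i)}) ∩ {z : H6 | -B z.1 g ≤ U} := by
      ext z; simp [hZ]
    rw [this]
    have hB : ∀ v : Fin 7 → ℝ, Measurable (fun z : H6 => B z.1 v) := by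
      intro v
      have h1 : Measurable (fun x : Fin 7 → ℝ => B x v) := by
        unfold B
        fun_prop
      exact h1.comp measurable_subtype_coe
    refine (MeasurableSet.iInter fun i => ?_).inter ?_
    · exact measurableSet_lt measurable_const (hB _)
    · exact measurableSet_le (hB _).neg measurable_const
  have h1 : {x : H6 | (∀ i, 0 < B x.1 (e i)) ∧ x.1 0 ≤ U} = (actI hL) ⁻¹' Z := by
    ext y
    simp only [Set.mem_ofPred_eq, mem_preimage, hZ, actI_val, hf, hg]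
    rw [hL.1, B_E0]
    simp only [hL.1, neg_neg]
  rw [h1, (mp_actI hL).measure_preimage hZm.nullMeasurableSet, hypVol_apply hZm]
  have h2 : pt ⁻¹' Z = {z | z ∈ C ∧ g 0 * Real.sqrt (1 + ∑ i, z i ^ 2) - ∑ i, g i.succ * z i ≤ U} := by
    ext z
    simp only [mem_preimage, hZ, hC, Set.mem_ofPred_eq, B_pt, hf0, mul_zero, neg_zero, zero_add]
    refine and_congr (forall_congr' fun i => ?_) ?_
    · have : ∑ k : Fin 6, z k * f i k.succ = ∑ k, n i k * z k :=
        Finset.sum_congr rfl fun k _ => by rw [hn]; ring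
      rw [this]
    · have : ∑ k : Fin 6, z k * g k.succ = ∑ k : Fin 6, g k.succ * z k :=
        Finset.sum_congr rfl fun k _ => by ring
      rw [this]
      constructor <;> intro h <;> linarith
  rw [h2]
  rfl

end

end Pool.Agent.W438.RA
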